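import Pool.Agent.Q57.ZP.Uni
import Pool.Agent.Q57.ZP.Four

/-!
# MP_e573c6_ag: Zilber-Pink for curves in products of modular curves: all but finitely many of the
scalings by products of powers of the values of binary forms at pairs of coprime integers, any level

The setting is that of the starting file `FourPlaces`, whose definitions (`curve`, `AtypEmpty`,
`valueAt`, `CornersNe`, `DegreeBounds`, special subvarieties with more constants) are used here.
`Y(1)^n` is identified with `ℂ^n` by the `j`-function. Let `s_i` be functions integral over `ℂ[j]`,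
`R_i (s_i, j) = 0` with `R_i` monic in the first variable, for instance modular functions of any
level without poles in the upper half plane (level one: `R_i = S - J`, `s_i = j`). For each pair
`J = {i, i'}` of coordinates let `G_J` be a polynomial in two variables with non-zero corner
coefficients (the curve `G_J = 0` in `P^1 × P^1` does not contain a point with both coordinates equal
to `0` or `∞`). For a vector `c` of positive integers let `C_c` be the set of all points of `Y(1)^n`
over which there are values `s_i` of the functions with `G_J (c_i s_i, c_i' s_i') = 0` for all pairs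
`J = {i, i'}`; for example the curve of all points `(g_1 (v) / c_1, …, g_n (v) / c_n)`, where the `g_i`
are Möbius transformations with `2 n` different zeros and poles, is contained in `C_c` (level one).

Let `F_1, …, F_M` be binary forms with integral coefficients, `F_l (s, t) = t ^ (deg f_l) f_l (s / t)`
with pairwise coprime polynomials `f_l`, such that the product of any `M - 3` of them has at least
three different linear factors over `ℂ` (for example `M ≥ 6` and the `F_l` are non-constant, or `M = 4`
and each `F_l` has three different linear factors). Let `G_i (s, t) = t ^ (N_i) g_i (s / t)` be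
arbitrary forms of any degrees `N_i`, coprime to the `F_l`, and let `a_{l i}` be independent exponents:
positive integers such that `q a_{l i} a_{l j} a_{l' i} a_{l' j}` is not a square for `l ≠ l'`,
`i ≠ j`, `1 ≤ q ≤ T^8` (`T` bounds the degrees of the `R_i`; `T = 1` for level one).

**Theorem.** For all but finitely many pairs `(s, t)` of coprime integers the curve `C_c`,
`c_i = |G_i (s, t)| ∏_l |F_l (s, t)| ^ (a_{l i})`, meets no special subvariety of codimension at least
two: `atyp (C_c) = ∅`.

The starting file treats a positive proportion of all vectors `c`, and the family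
`c_i = ∏_l (k + l) ^ (a_{l i})`, `k ≤ H`, up to a power of `log H` exceptions. The `c_i` are not
functions of `s / t`: the degrees of the forms `G_i ∏_l F_l ^ (a_{l i})` are arbitrary, and the
results on one-parameter families with rational parameter do not apply. The proof uses Ridout's
theorem (in the form of Mahler's theorem: the greatest prime factor of the value of a binary form
with three different linear factors tends to infinity).
-/

set_option autoImplicit false

namespace Pool.Agent.Results.MP_e573c6_ag.BinaryForms

open Pool.Agent.Results.MP_e573c6_ag.FourPlaces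

/-- The value at `(s, t)` of the binary form of degree `N` with the coefficients of `f`; it is
`t ^ N * f (s / t)`, if `t ≠ 0` and the degree of `f` is at most `N`. -/
def form (N : ℕ) (f : Polynomial ℤ) (s t : ℤ) : ℤ :=
  ∑ i ∈ Finset.range (N + 1), f.coeff i * s ^ i * t ^ (N - i)

/-- No atypical points on all but finitely many of the scalings of a curve in a product of modular
curves of any level by the values of binary forms at pairs of coprime integers. -/
theorem result (n T : ℕ) (R : Fin n → Polynomial (Polynomial ℂ)) (hR : ∀ i, (R i).Monic)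
    (hT : ∀ i u w, ((R i).coeff u).coeff w ≠ 0 → u ≤ T ∧ w ≤ T)
    (G : ∀ J : Finset (Fin n), MvPolynomial J ℂ) (d : ∀ J : Finset (Fin n), J → ℕ)
    (hd : DegreeBounds G d) (hcor : CornersNe (RingHom.id ℂ) G d) (Γ : Finset ℂ)
    (M : ℕ) (a : Fin M → Fin n → ℕ) (ha : ∀ l i, 0 < a l i)
    (hsq : ∀ l l', l ≠ l' → ∀ i j, i ≠ j → ∀ q, 0 < q → q ≤ T ^ 8 →
      ¬ IsSquare (q * (a l i * a l j * (a l' i * a l' j))))
    (f : Fin M → Polynomial ℤ) (hf0 : ∀ l, f l ≠ 0)
    (hf : ∀ I : Finset (Fin M), M < I.card + 4 → 3 ≤ ((∏ l ∈ I, f l).rootSet ℂ).ncard)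
    (hcop : ∀ l l', l ≠ l' →
      IsCoprime ((f l).map (Int.castRingHom ℚ)) ((f l').map (Int.castRingHom ℚ)))
    (g : Fin n → Polynomial ℤ) (hg : ∀ i, g i ≠ 0) (N : Fin n → ℕ)
    (hN : ∀ i, (g i).natDegree ≤ N i)
    (hfg : ∀ l i, IsCoprime ((f l).map (Int.castRingHom ℚ)) ((g i).map (Int.castRingHom ℚ))) :
    {z : ℤ × ℤ | IsCoprime z.1 z.2 ∧ ¬ AtypEmpty (algebraMap (Algebra.adjoin ℤ (Γ : Set ℂ)) ℂ)
      (curve (RingHom.id ℂ) R G fun i => (((form (N i) (g i) z.1 z.2).natAbs *
        ∏ l, (form (f l).natDegree (f l) z.1 z.2).natAbs ^ a l i : ℕ) : ℂ))}.Finite := by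
  classical
  obtain ⟨D, hD, -, -⟩ := FourPlaces.result.2.2 n T R hR hT G d hd hcor Γ
  refine (Pool.Agent.Q57.ZP.family_union 4 f hf0 hf hcop g hg N hN hfg D).subset ?_
  rintro z ⟨hz, ht3⟩
  refine ⟨hz, ?_⟩
  rintro ⟨hfz, hgz, S, p, hS, hp⟩
  apply ht3
  apply hD
  obtain ⟨h1, h2, h3, h4, h5, h6⟩ := Pool.Agent.Q57.ZP.reduce_hyp
    (u := fun l => (form (f l).natDegree (f l) z.1 z.2).natAbs)
    (b := fun i => (form (N i) (g i) z.1 z.2).natAbs) (a := a) hS
    (fun l => Int.natAbs_ne_zero.2 (hfz l)) (fun i => Int.natAbs_ne_zero.2 (hgz i)) hp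
  have h7 := Pool.Agent.Q57.ZP.spread4_of_primes (T := T) (D := D)
    (fun l i => a (S.orderEmbOfFin hS l) i)
    ⟨fun l i => ha _ i, fun l l' hll => hsq _ _ fun h => hll ((S.orderEmbOfFin hS).injective h)⟩
    h1 h2 (fun l => p (S.orderEmbOfFin hS l)) h3 h4 h5 h6
  convert h7 using 1
  funext i
  exact Pool.Agent.Q57.ZP.prod_reduce (fun l => (form (f l).natDegree (f l) z.1 z.2).natAbs)
    (fun i => (form (N i) (g i) z.1 z.2).natAbs) a S hS i

end Pool.Agent.Results.MP_e573c6_ag.BinaryForms
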