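import Pool.Agent.Q41.ZP.Expo
import Pool.Agent.Q57.ZP.Four

/-!
# MP_e573c6_ag: Zilber-Pink for curves in products of modular curves: all large members of
exponential families of scalings, any level

The setting is that of the starting file `FourPlaces`, whose definitions (`curve`, `AtypEmpty`,
`valueAt`, `CornersNe`, `DegreeBounds`, `IndependentExponents`, special subvarieties with more
constants) are used here. `Y(1)^n` is identified with `ℂ^n` by the `j`-function. Let `s_i` be
functions integral over `ℂ[j]`, `R_i (s_i, j) = 0` with `R_i` monic in the first variable, for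
instance modular functions of any level without poles in the upper half plane (level one:
`R_i = S - J`, `s_i = j`). For each pair `J = {i, i'}` of coordinates let `G_J` be a polynomial in two
variables with non-zero corner coefficients (the curve `G_J = 0` in `P^1 × P^1` does not contain a
point with both coordinates equal to `0` or `∞`). For a vector `c` of positive integers let `C_c` be
the set of all points of `Y(1)^n` over which there are values `s_i` of the functions with
`G_J (c_i s_i, c_i' s_i') = 0` for all pairs `J = {i, i'}`. For example `C_c` contains the curve of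
all points `(g_1 (v) / c_1, …, g_n (v) / c_n)`, where the `g_i` are Möbius transformations with `2 n`
different zeros and poles, and the images of the corresponding curves in products of modular curves
of any level; `C_c` is at most a curve, for `n ≥ 2`.

The starting file shows that `C_c` meets no special subvariety of codimension at least two,
`atyp (C_c) = ∅`, if the exponents of `c` at four large primes are positive and independent modulo
squares. It deduces this for a positive proportion of all `c`, and for the members of the family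
`c_i = ∏_l (k + l) ^ (a l i)` with exceptional `k`. Here we give natural families without exceptions.
Let `a l i`, `l = 0, 1, 2, 3`, be independent exponents: positive integers such that
`q a_{l i} a_{l j} a_{l' i} a_{l' j}` is not a square for `l ≠ l'`, `i ≠ j`, `1 ≤ q ≤ T^8` (`T` bounds
the degrees of the `R_i`; `T = 1` for level one), and let `b_i` be any positive integers. Then
`atyp (C_c) = ∅` for

* `c_i = b_i ∏_l (α ^ (t + l) - γ ^ (t + l)) ^ (a l i)` for *all* sufficiently large `t`, where
  `α > γ ≥ 1` are any coprime integers (for example `c_i = b_i ∏_l (2 ^ (t + l) - 1) ^ (a l i)`);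
* `c_i = b_i ∏_l (α ^ (2 ^ (t + l)) + 1) ^ (a l i)` for *all* sufficiently large `t`, where `α ≥ 2`
  is any even integer (generalized Fermat numbers);
* `c_i = b_i ∏_l ((l + 1) M + 1) ^ (a l i)` for *all* positive multiples `M` of a number `M₀`.

So only four factors are needed, for curves in `Y(1)^n` with any `n`.
-/

set_option autoImplicit false

namespace Pool.Agent.Results.MP_e573c6_ag.ExponentialFamilies

open Pool.Agent.Results.MP_e573c6_ag.FourPlaces

/-- No atypical points on all large members of exponential families, and on all members of an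
arithmetic progression, of scalings of a curve in a product of modular curves of any level. -/
theorem result (n T : ℕ) (R : Fin n → Polynomial (Polynomial ℂ)) (hR : ∀ i, (R i).Monic)
    (hT : ∀ i u w, ((R i).coeff u).coeff w ≠ 0 → u ≤ T ∧ w ≤ T)
    (G : ∀ J : Finset (Fin n), MvPolynomial J ℂ) (d : ∀ J : Finset (Fin n), J → ℕ)
    (hd : DegreeBounds G d) (hcor : CornersNe (RingHom.id ℂ) G d) (Γ : Finset ℂ)
    (a : Fin 4 → Fin n → ℕ) (ha : IndependentExponents T a)
    (b : Fin n → ℕ) (hb : ∀ i, b i ≠ 0) :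
    (∀ α γ : ℕ, 0 < γ → γ < α → Nat.Coprime α γ → ∃ t₀ : ℕ, ∀ t : ℕ, t₀ ≤ t →
      AtypEmpty (algebraMap (Algebra.adjoin ℤ (Γ : Set ℂ)) ℂ)
        (curve (RingHom.id ℂ) R G fun i =>
          ((b i * ∏ l : Fin 4, (α ^ (t + (l : ℕ)) - γ ^ (t + (l : ℕ))) ^ a l i : ℕ) : ℂ))) ∧
    (∀ α : ℕ, 0 < α → Even α → ∃ t₀ : ℕ, ∀ t : ℕ, t₀ ≤ t →
      AtypEmpty (algebraMap (Algebra.adjoin ℤ (Γ : Set ℂ)) ℂ)
        (curve (RingHom.id ℂ) R G fun i =>
          ((b i * ∏ l : Fin 4, (α ^ 2 ^ (t + (l : ℕ)) + 1) ^ a l i : ℕ) : ℂ))) ∧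
    ∃ M₀ : ℕ, 0 < M₀ ∧ ∀ M : ℕ, 0 < M → M₀ ∣ M →
      AtypEmpty (algebraMap (Algebra.adjoin ℤ (Γ : Set ℂ)) ℂ)
        (curve (RingHom.id ℂ) R G fun i =>
          ((b i * ∏ l : Fin 4, (((l : ℕ) + 1) * M + 1) ^ a l i : ℕ) : ℂ)) := by
  obtain ⟨D, hD, -, -⟩ := FourPlaces.result.2.2 n T R hR hT G d hd hcor Γ
  set E := D + 4 + ∑ i, b i with hE
  have hbE : ∀ (i : Fin n) (p : ℕ), E < p → ¬ p ∣ b i := by
    intro i p hp h
    have h1 := Nat.le_of_dvd (Nat.pos_of_ne_zero (hb i)) h
    have h2 : b i ≤ ∑ i, b i := Finset.single_le_sum (fun i _ => Nat.zero_le _) (Finset.mem_univ i)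
    omega
  have key : ∀ u : Fin 4 → ℕ, (∀ l, u l ≠ 0) → (∃ p : Fin 4 → ℕ,
      (∀ l, (p l).Prime ∧ E < p l ∧ p l ∣ u l) ∧ ∀ l l' : Fin 4, l ≠ l' → ¬ p l ∣ u l') →
      AtypEmpty (algebraMap (Algebra.adjoin ℤ (Γ : Set ℂ)) ℂ)
        (curve (RingHom.id ℂ) R G fun i => ((b i * ∏ l, u l ^ a l i : ℕ) : ℂ)) := by
    rintro u hu ⟨p, hp1, hp2⟩
    apply hD
    exact Pool.Agent.Q57.ZP.spread4_of_primes (D := D) a ha hu hb p
      (fun l => ⟨(hp1 l).1, by have := (hp1 l).2.1; omega⟩) (fun l => (hp1 l).2.2) hp2
      (fun l i => hbE i (p l) (hp1 l).2.1)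
  refine ⟨fun α γ hγ hαγ hcop => ?_, fun α hα0 hα => ?_, ?_⟩
  · obtain ⟨t₀, -, ht₀⟩ := Pool.Agent.Q41.ZP.expo_family hγ hαγ hcop 4 E
    exact ⟨t₀, fun t ht => key _ (ht₀ t ht).1 (ht₀ t ht).2⟩
  · refine ⟨E, fun t ht => key _ (fun l => Nat.succ_ne_zero _)
      (Pool.Agent.Q41.ZP.fermat_family hα0 hα ?_)⟩
    exact lt_of_lt_of_le Nat.lt_two_pow_self (Nat.pow_le_pow_right (by norm_num) ht)
  · exact ⟨E.factorial, Nat.factorial_pos _, fun M hM0 hM => key _ (fun l => Nat.succ_ne_zero _)
      (Pool.Agent.Q41.ZP.prog_family (by omega) hM0 hM)⟩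

end Pool.Agent.Results.MP_e573c6_ag.ExponentialFamilies
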