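import Pool.Agent.Q57.ZP.Mod

/-!
# MP_e573c6_ag: no atypical points on the members of families of curves in products of modular curves,
scaled by arbitrary units

The Shimura variety `Y(1)^n` is identified with `ℂ^n` by the elliptic modular function
`jj = j = E₄³ / Δ`.

**Families.** Let `K ⊂ ℂ` be a countable field. We consider subsets `X_{t,w}` (`member`) of `Y(1)^n`
with `n + 1` parameters `t, w_1, …, w_n`, given by
* a family `B_t ⊆ P^N` of projective algebraic sets (curves), defined by forms `G k` with coefficients
  in `K[t]`,
* quotients `f_i = A_i / B_i` of forms of the same degree `δ_i` with coefficients in `K[t]`,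
* functions `s_i` integral over `K[j]`, `R_i (s_i, j) = 0` with `R_i` monic in the first variable
  (level one: `R_i = S - J`, `s_i = j`; in general modular functions of any level without poles
  in the upper half plane), and nonzero polynomials `c_i ∈ K[t]`:
`X_{t,w} = {x | ∃ y ∈ B_t, ∃ s, ∀ i, R_i (s_i, x_i) = 0, w_i c_i (t) s_i = A_i (y) / B_i (y)}`.

**Multipliers.** Let `F` and `P` be finite sets of complex numbers algebraic over `K`, and let `R_t` be
the ring generated by `F`, `t` and the numbers `1 / (t - b)`, `b ∈ P`. The multipliers `w_i` are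
arbitrary units of `R_t`, independent of each other. Examples: arbitrary units of the ring generated
by `F` (for instance `S`-units); arbitrary powers `(t - b) ^ k`, `b ∈ P`, `k ∈ ℤ`; and arbitrary powers
of `v`, if `t = u / v` with `u`, `v` in the ring generated by `F` and `a u + e v = 1` with `a`, `e` in
this ring.

**Degenerate members.** Let `D_1, …, D_M` be finite sets of complex numbers algebraic over `K`, disjoint
from `P`, such that for all `α` in `D_l`
* no point of `B_α` lies on two of the divisors of the `f_i` (at `t = α`), and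
* the `c_i` have zeros at `α`, of orders `e_i (α) > 0`, and these orders are independent:
  `q e_i (α) e_j (α) e_i (α') e_j (α')` is not a square for `α` in `D_l` and `α'` in `D_l'`,
  `l ≠ l'`, `i ≠ j`, `1 ≤ q ≤ T^8`, where `T` bounds the degrees of the `R_i` (`T = 1` for level
  one).

**Theorem.** The set `X_{t,w}` has no point at all on special subvarieties of codimension at least two,
for ALL `w` in `(R_t^×)^n` and for all but finitely many
1. `t` in the field generated by `F`, if the union of any `M - 3` or more of the sets `D_l` has at least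
   three elements (for example, if there are six degenerate members),
2. `t` in the ring generated by `F`, if the union of any `M - 3` or more of the sets `D_l` has at least
   two elements (for example, if there are five degenerate members),
3. units `t` of the ring generated by `F`, if the union of any `M - 3` or more of the sets `D_l`
   contains a nonzero number (for example, if there are four degenerate members with nonzero
   parameters); this includes the elements `t` of any given finitely generated multiplicative group.

The constant coordinates of the special subvarieties can be special points or integral over the ring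
generated by any given finite set `Γ` of numbers algebraic over `K`. The finite exceptional set of the
`t` does not depend on `w`, and the number of degenerate members does not depend on `n`.

For `w = 1` the parts 1. and 2. are in the file `MP_22337f_ag.FinitelyGeneratedFields`. The result
`CurvesOverEllipticCurves` of this problem treats the points of an elliptic curve over a number field,
without multipliers, and `FourPlaces` a positive proportion of all scalings by positive integers.
-/

set_option autoImplicit false

namespace Pool.Agent.Results.MP_e573c6_ag.TwistedFamilies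

open MvPolynomial
open Pool.Agent.Results.MP_22337f_ag.FinitelyGeneratedFields (SpecialVariety InGeneralPosition
  IndependentOrders evalAt OnB valueAt)

/-- The member `X_{t,w}` of the family of subsets of `Y(1)^n`: the points `x` over which there are
values `s_i` of the functions on the factors of the product of modular curves, with
`w_i c_i (t) s_i = A_i (y) / B_i (y)` for a point `y` of `B_t`. -/
def member {K : Subfield ℂ} (t : ℂ) {N n : ℕ} {κ : Type}
    (G : κ → MvPolynomial (Fin (N + 1)) (Polynomial K))
    (A B : Fin n → MvPolynomial (Fin (N + 1)) (Polynomial K))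
    (R : Fin n → Polynomial (Polynomial K)) (c : Fin n → Polynomial K) (w : Fin n → ℂ) :
    Set (Fin n → ℂ) :=
  {x | ∃ y, OnB t G y ∧ ∃ s : Fin n → ℂ, ∀ i, valueAt (R i) (s i) (x i) = 0 ∧
    w i * evalAt K t (c i) * eval₂ (evalAt K t) y (B i) * s i = eval₂ (evalAt K t) y (A i)}

/-- `z` is a unit of the ring generated by `S`. -/
def IsUnitOf (S : Set ℂ) (z : ℂ) : Prop :=
  z ≠ 0 ∧ z ∈ Subring.closure S ∧ z⁻¹ ∈ Subring.closure S

/-- The generators `F`, `t` and `1 / (t - b)`, `b ∈ P`, of the ring `R_t`. -/
def generators (F P : Finset ℂ) (t : ℂ) : Set ℂ :=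
  insert t ((F : Set ℂ) ∪ (fun b => (t - b)⁻¹) '' (P : Set ℂ))

/-- For some vector `w` of units of `R_t` the set `X_{t,w}` has a point on a special subvariety of
codimension at least two (whose constant coordinates are special or integral over `Γ`). -/
def HasAtypicalPoint {K : Subfield ℂ} (Γ F P : Finset ℂ) {N n : ℕ} {κ : Type}
    (G : κ → MvPolynomial (Fin (N + 1)) (Polynomial K))
    (A B : Fin n → MvPolynomial (Fin (N + 1)) (Polynomial K))
    (R : Fin n → Polynomial (Polynomial K)) (c : Fin n → Polynomial K) (t : ℂ) : Prop :=
  ∃ w : Fin n → ℂ, (∀ i, IsUnitOf (generators F P t) (w i)) ∧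
    ∃ (r : ℕ) (Z : SpecialVariety (algebraMap (Algebra.adjoin ℤ (Γ : Set ℂ)) ℂ) n r),
      r + 2 ≤ n ∧ (member t G A B R c w ∩ Z.locus).Nonempty

/-- Families of curves in products of modular curves of any level with sufficiently many degenerate
members, scaled by arbitrary units: only for finitely many parameters in a finitely generated field,
in a finitely generated ring, or in its group of units there is a scaling with an atypical point. -/
theorem result (K : Subfield ℂ) [Countable K] (κ : Type) [Finite κ] (N n M T : ℕ)
    (G : κ → MvPolynomial (Fin (N + 1)) (Polynomial K)) (hG : ∀ k, ∃ e, (G k).IsHomogeneous e)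
    (A B : Fin n → MvPolynomial (Fin (N + 1)) (Polynomial K)) (δ : Fin n → ℕ)
    (hA : ∀ i, (A i).IsHomogeneous (δ i)) (hB : ∀ i, (B i).IsHomogeneous (δ i))
    (R : Fin n → Polynomial (Polynomial K)) (hR : ∀ i, (R i).Monic)
    (hT : ∀ i u w, ((R i).coeff u).coeff w ≠ 0 → u ≤ T ∧ w ≤ T)
    (c : Fin n → Polynomial K) (hc : ∀ i, c i ≠ 0)
    (D : Fin M → Finset ℂ) (hD : ∀ l, ∀ α ∈ D l, IsAlgebraic K α)
    (hind : IndependentOrders T c D) (hpos : ∀ l, ∀ α ∈ D l, InGeneralPosition α 1 G A B)
    (Γ : Finset ℂ) (hΓ : ∀ γ ∈ Γ, IsAlgebraic K γ) (F : Finset ℂ)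
    (hF : ∀ z ∈ F, IsAlgebraic K z) (P : Finset ℂ) (hP : ∀ z ∈ P, IsAlgebraic K z)
    (hPD : ∀ l, ∀ α ∈ D l, α ∉ P) :
    ((∀ I : Finset (Fin M), M ≤ I.card + 3 → 3 ≤ (I.biUnion D).card) →
      {t : ℂ | t ∈ Subfield.closure (F : Set ℂ) ∧ HasAtypicalPoint Γ F P G A B R c t}.Finite) ∧
    ((∀ I : Finset (Fin M), M ≤ I.card + 3 → 2 ≤ (I.biUnion D).card) →
      {t : ℂ | t ∈ Subring.closure (F : Set ℂ) ∧ HasAtypicalPoint Γ F P G A B R c t}.Finite) ∧
    ((∀ I : Finset (Fin M), M ≤ I.card + 3 → ∃ α ∈ I.biUnion D, α ≠ 0) →
      {t : ℂ | IsUnitOf (F : Set ℂ) t ∧ HasAtypicalPoint Γ F P G A B R c t}.Finite) := by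
  obtain ⟨W, hFW, hcrit⟩ := Pool.Agent.Q57.ZP.mod_crit K κ N n 1 M T G hG A B δ hA hB R hR hT c hc
    D hD hind hpos Γ hΓ F hF P hP hPD
  have hE : ∀ t, t ∉ {t : ℂ | ¬ IsAlgebraic K t} → (∃ f : Fin (3 + 1) → Fin M,
      Function.Injective f ∧ ∀ l, ∃ a ∈ D (f l), ¬ Pool.Agent.Y910.Z.Bad (W : Set ℂ) t a) →
      t ∉ {t | HasAtypicalPoint Γ F P G A B R c t} := by
    rintro t ht hf ⟨w, hw, hno⟩
    exact (hcrit t (not_not.1 ht) w fun i =>
      Pool.Agent.Q57.ZP.UnitOf.mono (Pool.Agent.Q57.ZP.gens_mono hFW t) (hw i)).2 rfl hf hno
  refine ⟨fun h => ?_, fun h => ?_, fun h => ?_⟩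
  · exact Pool.Agent.Q57.ZP.finite_of_bad' (3 + 1) W D _
      (fun I hI => Pool.Agent.Q57.ZP.fin_bad_field W F D I (h I (by omega))) _ _
      (Pool.Agent.Q57.ZP.alg_field hF) hE
  · exact Pool.Agent.Q57.ZP.finite_of_bad' (3 + 1) W D _
      (fun I hI => Pool.Agent.Q57.ZP.fin_bad_ring W F D I (h I (by omega))) _ _
      (Pool.Agent.Q57.ZP.alg_ring hF) hE
  · exact Pool.Agent.Q57.ZP.finite_of_bad' (3 + 1) W D _
      (fun I hI => Pool.Agent.Q57.ZP.fin_bad_unit W F hFW D I (h I (by omega))) _ _
      (Pool.Agent.Q57.ZP.alg_unit hF) hE

end Pool.Agent.Results.MP_e573c6_ag.TwistedFamilies
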