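import Pool.Agent.Q57.ZP.EllM

/-!
# MP_e573c6_ag: Zilber-Pink for all but finitely many members of families of curves in `Y(1)^n` over an
elliptic curve, scaled by arbitrary units

The Shimura variety `Y(1)^n` is identified with `ℂ^n` by the elliptic modular function
`jj = j = E₄³ / Δ`.

**The base.** Let `a, b` be algebraic numbers with `4 a³ + 27 b² ≠ 0` and let `Curve a b` be the set of
the affine points `P = (x, y)` of the elliptic curve `y² = x³ + a x + b`. At a point `Q` of it the
function `loc Q`, which is `x - x(Q)` if `y(Q) ≠ 0` and `y` if `y(Q) = 0`, is a local parameter, and a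
function `c ∈ ℂ[x, y]` has the order `e` at `Q` if `c = loc^e g / h` on the curve with polynomials
`g, h` in `x, y` which do not vanish at `Q` and whose coefficients are algebraic over a given
countable field `K ⊂ ℂ` (`HasOrder`).

**Families.** We consider families of curves `X_{P,w}` in `Y(1)^n`, given by
* a family `B_t ⊆ P^N` of projective algebraic sets, defined by forms `G k` with coefficients in
  `K[t]`, quotients `f_i = A_i / B_i` of forms of the same degree `d_i` with coefficients in `K[t]`,
  and a rational function `t = φ(P) = u(P) / v(P)` on the elliptic curve (so `B_t` can be a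
  fixed variety, or the pullback by `φ` of any one-parameter family),
* functions `s_i` integral over `K[j]`, `R_i (s_i, j) = 0` with `R_i` monic in the first variable
  (level one: `R_i = S - J`, `s_i = j`; in general modular functions of any level without poles
  in the upper half plane), functions `c_i ∈ ℂ[x, y]` on the elliptic curve, and nonzero numbers
  `w_i`:
`X_{P,w} = {x | ∃ y ∈ B_t, ∃ s, ∀ i, R_i (s_i, x_i) = 0, w_i c_i (P) s_i = A_i (y) / B_i (y)}`,
`t = φ(P)` (`member`). For example: the translates `(w_1 c_1(P))⁻¹ y_1, …, (w_n c_n(P))⁻¹ y_n)`,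
`y ∈ V`, of a fixed affine variety `V`.

**Multipliers.** Let `F` be a finite set of numbers algebraic over `K`, `H` a finite set of functions in
`ℂ[x, y]` with coefficients algebraic over `K`, and let `R_P` be the ring generated by `F`, the
coordinates of `P` and the numbers `h(P)⁻¹`, `h ∈ H` (`generators`). The multipliers `w_i` are arbitrary
units of the integral closure of `R_P` in `ℂ`, independent of each other: for instance arbitrary
units of the ring of all algebraic integers, arbitrary roots of `S`-units, and products of arbitrary,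
also fractional, powers, positive or negative, of the values `h(P)`, `h ∈ H`.

**Degenerate members.** Let `Q_1, …, Q_4` be points of the elliptic curve with algebraic coordinates,
`v(Q_l) ≠ 0`, `h(Q_l) ≠ 0` for `h ∈ H`, such that
* no point of `B_t` lies on two of the divisors of the `f_i`, for `t = φ(Q_l)`, and
* the `c_i` have zeros at `Q_l`, of orders `e_li > 0`, and these orders are independent:
  `q e_li e_lj e_l'i e_l'j` is not a square for `l ≠ l'`, `i ≠ j`, `1 ≤ q ≤ T^8`, where `T` bounds
  the degrees of the `R_i` (`T = 1` for level one).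

**Theorem.** For every number field `E`, for all but finitely many of the points `P` of the elliptic
curve over `E` and for ALL multipliers `w` the set `X_{P,w}` does not meet any special subvariety of
`Y(1)^n` of codimension at least two, for any `n`. The constant coordinates of the special
subvarieties can be special points or arbitrary numbers integral over `R_P`. The finite exceptional
set of points `P` does not depend on `w`.

The starting file `CurvesOverEllipticCurves` of this problem is the case that all `w_i = 1` and the
constants are integral over a fixed ring; now the curves form a family with `n + 1` parameters. Our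
result `TwistedFamilies` of this problem is over the projective line, and has multipliers in a
finitely generated group.
-/

set_option autoImplicit false

namespace Pool.Agent.Results.MP_e573c6_ag.TwistsOverEllipticCurves

open MvPolynomial Pool.Agent.Y199.SG.ZPZ
open Pool.Agent.Y199.SG.ZPY (SpecialVariety evalAt OnB InGeneralPosition valueAt)

/-- `z` is a unit of the integral closure in `ℂ` of the ring generated by `S`. -/
def IsUnitOver (S : Set ℂ) (z : ℂ) : Prop :=
  z ≠ 0 ∧ IsIntegral (Algebra.adjoin ℤ S) z ∧ IsIntegral (Algebra.adjoin ℤ S) z⁻¹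

/-- The generators of the ring `R_P`: the coordinates of `P`, the elements of `F` and the inverses of
the values at `P` of the functions in `H`. -/
def generators (F : Finset ℂ) (H : Finset (MvPolynomial (Fin 2) ℂ)) (P : Fin 2 → ℂ) : Set ℂ :=
  Set.range P ∪ ((F : Set ℂ) ∪ (fun h => (eval P h)⁻¹) '' (H : Set _))

/-- **Zilber-Pink for families of curves in `Y(1)^n` over an elliptic curve, scaled by arbitrary
units**: only for finitely many points `P` over a number field there are units `w` of the integral
closure of `R_P` such that `X_{P,w}` has a point on a special subvariety of codimension at least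
two. -/
theorem result (K : Subfield ℂ) [Countable K] (κ : Type) [Finite κ] (N n T : ℕ)
    (G : κ → MvPolynomial (Fin (N + 1)) (Polynomial K)) (hG : ∀ k, ∃ e, (G k).IsHomogeneous e)
    (A B : Fin n → MvPolynomial (Fin (N + 1)) (Polynomial K)) (δ : Fin n → ℕ)
    (hA : ∀ i, (A i).IsHomogeneous (δ i)) (hB : ∀ i, (B i).IsHomogeneous (δ i))
    (R : Fin n → Polynomial (Polynomial K)) (hR : ∀ i, (R i).Monic)
    (hT : ∀ i u w, ((R i).coeff u).coeff w ≠ 0 → u ≤ T ∧ w ≤ T)
    (a b : ℂ) (ha : IsAlgebraic ℚ a) (hb : IsAlgebraic ℚ b) (hab : 4 * a ^ 3 + 27 * b ^ 2 ≠ 0)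
    (u v : MvPolynomial (Fin 2) ℂ) (hu : ∀ d, IsAlgebraic K (u.coeff d))
    (hv : ∀ d, IsAlgebraic K (v.coeff d))
    (Q : Fin 4 → Fin 2 → ℂ) (hQ : ∀ l, Q l ∈ Curve a b) (hQa : ∀ l i, IsAlgebraic ℚ (Q l i))
    (hvQ : ∀ l, eval (Q l) v ≠ 0)
    (c : Fin n → MvPolynomial (Fin 2) ℂ) (e : Fin 4 → Fin n → ℕ)
    (he : ∀ l i, HasOrder K a b (Q l) (c i) (e l i)) (hind : IndependentOrders T e)
    (hpos : ∀ l, InGeneralPosition (value u v (Q l)) 1 G A B)
    (F : Finset ℂ) (hF : ∀ z ∈ F, IsAlgebraic K z) (H : Finset (MvPolynomial (Fin 2) ℂ))
    (hHa : ∀ h ∈ H, ∀ d, IsAlgebraic K (h.coeff d)) (hHQ : ∀ l, ∀ h ∈ H, eval (Q l) h ≠ 0)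
    (E : IntermediateField ℚ ℂ) [FiniteDimensional ℚ E] :
    {P : Fin 2 → ℂ | P ∈ Curve a b ∧ (∀ i, P i ∈ E) ∧
      ∃ w : Fin n → ℂ, (∀ i, IsUnitOver (generators F H P) (w i)) ∧
        ∃ (r : ℕ) (Z : SpecialVariety (algebraMap (Algebra.adjoin ℤ (generators F H P)) ℂ) n r),
          r + 2 ≤ n ∧ (member (value u v P) (fun i => w i * eval P (c i)) G A B R ∩
            Z.locus).Nonempty}.Finite := by
  obtain ⟨W, hW⟩ := Pool.Agent.Q57.ZP.core_unit K κ N n 1 4 T G hG A B δ hA hB R hR hT a b
    ha.isIntegral.tower_top.isAlgebraic u v hu hv hb.isIntegral.tower_top.isAlgebraic Q hQ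
    (fun l i => (hQa l i).isIntegral.tower_top.isAlgebraic) hvQ c e he hind hpos F hF H hHa hHQ
  refine (near_all a b ha hb hab Q hQ hQa W E).subset ?_
  rintro P ⟨hP, hPE, w, hw, hbad⟩
  refine ⟨hP, hPE, fun hnear => ?_⟩
  exact (hW P hP (fun i => alg_of_mem K E _ (hPE i)) hnear w hw).2 rfl le_rfl hbad

end Pool.Agent.Results.MP_e573c6_ag.TwistsOverEllipticCurves
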